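import Pool.Agent.H355R3.UF.Stmts

set_option autoImplicit false

/-! Project H355-UF, task C2. -/

namespace H51R3.UF

open H355R3 RegularWreathProduct

section P

variable {G Z : Type} [Group G] [CommGroup Z]

/-- the product over a left coset of `N` -/
def P (N : Subgroup G) [Fintype N] (g : G → Z) (x : G) : Z := ∏ n : N, g (x * n)

theorem P_eq (N : Subgroup G) [Fintype N] (g : G → Z) {x y : G}
    (h : (x : G ⧸ N) = (y : G ⧸ N)) : P N g x = P N g y := by
  rw [QuotientGroup.eq] at h
  unfold P
  rw [← Equiv.prod_comp (Equiv.mulLeft (⟨x⁻¹ * y, h⟩ : N)) (fun n : N => g (x * n))]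
  refine Finset.prod_congr rfl fun n _ => ?_
  change g (x * ((x⁻¹ * y) * n)) = g (y * n)
  rw [← mul_assoc, mul_inv_cancel_left]

theorem P_mul (N : Subgroup G) [Fintype N] (g g' : G → Z) (x : G) :
    P N (fun y => g y * g' y) x = P N g x * P N g' x := by
  unfold P
  rw [← Finset.prod_mul_distrib]

theorem P_comp (N : Subgroup G) [Fintype N] (g : G → Z) (r x : G) :
    P N (fun y => g (r * y)) x = P N g (r * x) := by
  unfold P
  refine Finset.prod_congr rfl fun n _ => ?_
  rw [mul_assoc]

end P

section Om

variable {M G Z : Type} [Group M] [Group G] [CommGroup Z]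

/-- the fibre square of `M wr G` over `G` -/
def S (M G : Type) [Group M] [Group G] :
    Subgroup (RegularWreathProduct M G × RegularWreathProduct M G) :=
  MonoidHom.eqLocus (rightHom.comp (MonoidHom.fst _ _)) (rightHom.comp (MonoidHom.snd _ _))

theorem mem_S (s : RegularWreathProduct M G × RegularWreathProduct M G) :
    s ∈ S M G ↔ s.1.right = s.2.right := Iff.rfl

/-- quotient of the left parts -/
def gq (χ : M →* Z) (s : S M G) (x : G) : Z := χ (s.1.1.left x) * (χ (s.1.2.left x))⁻¹

theorem gq_mul (χ : M →* Z) (s t : S M G) :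
    gq χ (s * t) = fun x => gq χ s x * (fun y => gq χ t (s.1.1.right⁻¹ * y)) x := by
  funext x
  have hs : s.1.1.right = s.1.2.right := s.2
  have e1 : (s * t).1.1.left x = s.1.1.left x * t.1.1.left (s.1.1.right⁻¹ * x) := rfl
  have e2 : (s * t).1.2.left x = s.1.2.left x * t.1.2.left (s.1.2.right⁻¹ * x) := rfl
  unfold gq
  rw [e1, e2, ← hs, map_mul, map_mul, mul_inv]
  exact mul_mul_mul_comm _ _ _ _

/-- the homomorphism `Ω` -/
noncomputable def Om (N : Subgroup G) [N.Normal] [Fintype N] (χ : M →* Z) :
    S M G →* RegularWreathProduct Z (G ⧸ N) where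
  toFun s := ⟨fun c => P N (gq χ s) c.out, (s.1.1.right : G ⧸ N)⟩
  map_one' := by
    apply RegularWreathProduct.ext
    · funext c
      have h : gq χ (1 : S M G) = fun _ => 1 := by
        funext x
        unfold gq
        simp
      change P N (gq χ (1 : S M G)) c.out = 1
      rw [h]
      unfold P
      simp
    · rfl
  map_mul' s t := by
    apply RegularWreathProduct.ext
    · funext c
      change P N (gq χ (s * t)) c.out =
        P N (gq χ s) c.out * P N (gq χ t) ((s.1.1.right : G ⧸ N)⁻¹ * c).out
      rw [gq_mul, P_mul, P_comp]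
      congr 1
      apply P_eq
      rw [QuotientGroup.mk_mul, QuotientGroup.mk_inv, QuotientGroup.out_eq', QuotientGroup.out_eq']
    · rfl

theorem Om_surj (N : Subgroup G) [N.Normal] [Fintype N] (χ : M →* Z)
    (hχ : Function.Surjective χ) : Function.Surjective (Om N χ) := by
  classical
  intro w
  choose m hm using fun c : G ⧸ N => hχ (w.left c)
  refine ⟨⟨(⟨fun x => if x = (x : G ⧸ N).out then m (x : G ⧸ N) else 1, w.right.out⟩,
    ⟨1, w.right.out⟩), rfl⟩, ?_⟩
  apply RegularWreathProduct.ext
  · funext c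
    change P N _ c.out = _
    unfold P
    rw [Finset.prod_eq_single (1 : N)]
    · unfold gq
      simp [hm]
    · intro n _ hn
      have h1 : ((c.out * (n : G) : G) : G ⧸ N) = c := by
        rw [QuotientGroup.mk_mul, QuotientGroup.out_eq', (QuotientGroup.eq_one_iff (n : G)).2 n.2,
          mul_one]
      have h2 : c.out * (n : G) ≠ (((c.out * (n : G) : G) : G ⧸ N)).out := by
        rw [h1]
        intro h
        apply hn
        apply Subtype.ext
        exact mul_eq_left.1 h
      unfold gq
      simp only [if_neg h2]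
      simp
    · intro h
      exact absurd (Finset.mem_univ _) h
  · exact QuotientGroup.out_eq' _

end Om

theorem taskC2 : H355R3.UF.TaskC2 := by
  intro B M G _ _ _ _ _ p _ χ hχ hU
  have hfin : Finite (RegularWreathProduct M G × RegularWreathProduct M G) := inferInstance
  rw [← B.residual_le_ker_iff (Om (B.residual G) χ) (Om_surj (B.residual G) χ hχ)]
  intro s hs
  -- the two projections
  have hf1 : Function.Surjective ((MonoidHom.fst _ _).comp (S M G).subtype) :=
    fun a => ⟨⟨(a, ⟨1, a.right⟩), rfl⟩, rfl⟩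
  have hf2 : Function.Surjective ((MonoidHom.snd _ _).comp (S M G).subtype) :=
    fun a => ⟨⟨(⟨1, a.right⟩, a), rfl⟩, rfl⟩
  have h1 : s.1.1 ∈ B.residual (RegularWreathProduct M G) := by
    rw [← B.map_residual _ hf1]
    exact ⟨s, hs, rfl⟩
  have h2 : s.1.2 ∈ B.residual (RegularWreathProduct M G) := by
    rw [← B.map_residual _ hf2]
    exact ⟨s, hs, rfl⟩
  have h3 : s.1.1.right ∈ B.residual G := by
    rw [← B.map_residual (rightHom : RegularWreathProduct M G →* G) rightHom_surj]
    exact ⟨s.1.1, h1, rfl⟩
  have hss : s.1.1.right = s.1.2.right := s.2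
  set u : RegularWreathProduct M G := s.1.1 * (s.1.2)⁻¹ with hu
  have hu1 : u ∈ B.residual (RegularWreathProduct M G) :=
    (B.residual _).mul_mem h1 ((B.residual _).inv_mem h2)
  have hu2 : u.right = 1 := by
    rw [hu, mul_right, inv_right, ← hss, mul_inv_cancel]
  have hu3 : ∀ x, u.left x = s.1.1.left x * (s.1.2.left x)⁻¹ := by
    intro x
    have e : u.left x = s.1.1.left x * (s.1.2.left (s.1.2.right * (s.1.1.right⁻¹ * x)))⁻¹ := rfl
    rw [e, ← hss, mul_inv_cancel_left]
  rw [MonoidHom.mem_ker]
  apply RegularWreathProduct.ext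
  · funext c
    change P (B.residual G) (gq χ s) c.out = 1
    have h4 := (B.residual_normal (RegularWreathProduct M G)).conj_mem u hu1 ⟨1, (c.out)⁻¹⟩
    have h5 := hU _ h4 (by simp [hu2])
    unfold P
    rw [← h5]
    refine Finset.prod_congr rfl fun n _ => ?_
    rw [conj_inl _ _ hu2, inv_inv, hu3]
    unfold gq
    rw [map_mul, map_inv]
  · exact (QuotientGroup.eq_one_iff _).2 h3

end H51R3.UF
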